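import Pool.Agent.W203.BE.Stms
import Pool.Agent.H438R2.RZ.M1

/-!
# Part BE-CORE: the estimate for the Gaussian operators on average over `a`
-/

set_option autoImplicit false
set_option maxHeartbeats 1000000

open MeasureTheory Set Complex Filter
open scoped ENNReal

namespace Pool.Agent.W975.BE

open Pool.Agent.W203.BE

theorem al_re {κ a s : ℝ} (hκ : 0 < κ) (ha : 1 ≤ a) : 0 < (al κ a s).re := by
  unfold al
  exact mul_pos hκ (by linarith)

theorem al_meas (κ s : ℝ) (n : ℕ) :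
    Measurable fun a : Fin n → ℝ => fun j => al κ (a j) s := by
  refine measurable_pi_lambda _ fun j => ?_
  have h : (fun a : Fin n → ℝ => al κ (a j) s) = fun a =>
      (((κ * (a j - 1 / 2) : ℝ)) : ℂ) + ((κ * (2 * Real.pi * a j * s) : ℝ) : ℂ) * I := by
    funext a
    unfold al
    rw [Complex.ext_iff]
    simp
  rw [h]
  have h1 : Measurable fun a : Fin n → ℝ => a j := measurable_pi_apply j
  exact ((Complex.measurable_ofReal.comp ((h1.sub_const _).const_mul κ))).add
    ((Complex.measurable_ofReal.comp (((h1.const_mul (2 * Real.pi)).mul_const s).const_mul κ)).mul_const I)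

theorem T_add {n : ℕ} (hN : S_BASN) (α : Fin n → ℂ) (hα : ∀ j, 0 < (α j).re)
    (f g : (Fin n → ℝ) → ℂ) (hf : Integrable f) (hg : Integrable g) (x : Fin n → ℝ) :
    T α (fun y => f y + g y) x = T α f x + T α g x := by
  obtain ⟨_, _, _, _, h⟩ := hN n α hα
  have h1 := (h f hf).1 x
  have h2 := (h g hg).1 x
  unfold T
  rw [← integral_add h1 h2]
  refine integral_congr_ae (Eventually.of_forall fun y => ?_)
  simp only
  ring

/-- the two endpoint estimates -/
theorem ends (hL2 : S_L2) (hL4 : S_L4) (hI : S_ITER) : ∃ C : ℝ, 1 ≤ C ∧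
    ∀ κ : ℝ, 0 < κ → ∀ s : ℝ, ∀ (n : ℕ) (f : (Fin n → ℝ) → ℂ), Measurable f → Integrable f →
      (∫⁻ a in Icc (fun _ : Fin n => (1 : ℝ)) (fun _ => 2),
        ∫⁻ x, ‖T (fun j => al κ (a j) s) f x‖ₑ ^ 2 ≤ ∫⁻ x, ‖f x‖ₑ ^ 2) ∧
      (∫⁻ a in Icc (fun _ : Fin n => (1 : ℝ)) (fun _ => 2),
        ∫⁻ x, ‖T (fun j => al κ (a j) s) f x‖ₑ ^ 4 ≤
        ENNReal.ofReal ((C * (1 + Real.log (1 + |s|))) ^ n) * ∫⁻ x, ‖f x‖ₑ ^ 4) := by
  obtain ⟨C, hC, h4⟩ := hL4
  refine ⟨C, hC, fun κ hκ s n f hf hfi => ⟨?_, ?_⟩⟩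
  · have h := hI 2 (by norm_num) κ s 1 hκ ENNReal.one_ne_top ?_ n f hf hfi
    · simpa using h
    · intro g hg hgi
      calc ∫⁻ a in Icc (1 : ℝ) 2, ∫⁻ x, ‖T1 (al κ a s) g x‖ₑ ^ 2
          ≤ ∫⁻ _a in Icc (1 : ℝ) 2, ∫⁻ x, ‖g x‖ₑ ^ 2 :=
            setLIntegral_mono' measurableSet_Icc fun a ha => hL2 _ (al_re hκ ha.1) g hg hgi
        _ = 1 * ∫⁻ x, ‖g x‖ₑ ^ 2 := by
            rw [setLIntegral_const, Real.volume_Icc, mul_comm]
            congr 1
            norm_num
  · have hL : 0 ≤ Real.log (1 + |s|) := Real.log_nonneg (by have := abs_nonneg s; linarith)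
    have hnn : 0 ≤ C * (1 + Real.log (1 + |s|)) := by positivity
    have h := hI 4 (by norm_num) κ s (ENNReal.ofReal (C * (1 + Real.log (1 + |s|)))) hκ
      ENNReal.ofReal_ne_top (fun g hg hgi => h4 κ hκ s g hg hgi) n f hf hfi
    rw [ENNReal.ofReal_pow hnn]
    exact h

theorem core : S_BASN → S_MEAS → S_L2 → S_L4 → S_ITER → S_CORE := by
  intro hN hM hL2 hL4 hI n p hp2 hp4
  obtain ⟨C, hC, hE⟩ := ends hL2 hL4 hI
  rcases hp2.eq_or_lt with h2 | h2
  · refine ⟨1, one_pos, fun κ hκ s f hf hfi => ?_⟩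
    subst h2
    have hL : 0 ≤ Real.log (1 + |s|) := Real.log_nonneg (by have := abs_nonneg s; linarith)
    have h := (hE κ hκ s n f hf hfi).1
    simp only [ENNReal.rpow_two]
    refine h.trans ?_
    have h1 : (1 : ℝ≥0∞) ≤ ENNReal.ofReal (1 * (1 + Real.log (1 + |s|)) ^ n) := by
      rw [ENNReal.one_le_ofReal, one_mul]
      exact one_le_pow₀ (by linarith)
    calc ∫⁻ x, ‖f x‖ₑ ^ 2 = 1 * ∫⁻ x, ‖f x‖ₑ ^ 2 := (one_mul _).symm
      _ ≤ _ := by gcongr
  rcases hp4.eq_or_lt with h4 | h4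
  · refine ⟨C ^ n, by positivity, fun κ hκ s f hf hfi => ?_⟩
    subst h4
    have h := (hE κ hκ s n f hf hfi).2
    rw [mul_pow] at h
    have e : ∀ x : ℝ≥0∞, x ^ (4 : ℝ) = x ^ 4 := fun x => by
      rw [← ENNReal.rpow_natCast]; norm_num
    simp only [e]
    exact h
  -- interpolation
  obtain ⟨Cp, hCp, hmz⟩ := Pool.Agent.H438R2.RZ.marc24 p h2 h4
  refine ⟨Cp * C ^ n, by positivity, fun κ hκ s f hf hfi => ?_⟩
  have hL : 0 ≤ Real.log (1 + |s|) := Real.log_nonneg (by have := abs_nonneg s; linarith)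
  set M4 : ℝ := (C * (1 + Real.log (1 + |s|))) ^ n with hM4
  have hM1 : 1 ≤ M4 := one_le_pow₀ (by nlinarith)
  set Q : Set (Fin n → ℝ) := Icc (fun _ : Fin n => (1 : ℝ)) (fun _ => 2) with hQ
  have hQm : MeasurableSet Q := measurableSet_Icc
  have hjm : ∀ g : (Fin n → ℝ) → ℂ, Measurable g →
      Measurable fun q : (Fin n → ℝ) × (Fin n → ℝ) => T (fun j => al κ (q.1 j) s) g q.2 :=
    fun g hg => hM n (Fin n → ℝ) (fun a j => al κ (a j) s) (fun _ => g) (al_meas κ s n)
      (hg.comp measurable_snd)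
  set ν : Measure ((Fin n → ℝ) × (Fin n → ℝ)) := ((volume : Measure (Fin n → ℝ)).restrict Q).prod volume
    with hν
  have hmain := hmz (volume : Measure (Fin n → ℝ)) ν
    (fun q => ‖T (fun j => al κ (q.1 j) s) f q.2‖) (fun x => ‖f x‖) (hjm f hf).norm hf.norm
    (fun _ => norm_nonneg _) (fun _ => norm_nonneg _) 1 M4 one_pos (by linarith) ?_
  · have e1 : ∀ z : ℂ, ENNReal.ofReal ‖z‖ = ‖z‖ₑ := fun z => ofReal_norm z
    simp only [e1] at hmain
    rw [hν, lintegral_prod _ (((hjm f hf).enorm.pow_const p).aemeasurable)] at hmain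
    refine hmain.trans ?_
    refine mul_le_mul_left (ENNReal.ofReal_le_ofReal ?_) _
    rw [Real.one_rpow, mul_one, mul_assoc]
    refine mul_le_mul_of_nonneg_left ?_ hCp.le
    calc M4 ^ ((p - 2) / 2) ≤ M4 ^ (1 : ℝ) :=
          Real.rpow_le_rpow_of_exponent_le hM1 (by linarith)
      _ = C ^ n * (1 + Real.log (1 + |s|)) ^ n := by rw [Real.rpow_one, hM4, mul_pow]
  · intro t ht
    set A1 : Set (Fin n → ℝ) := {x | t < ‖f x‖} with hA1
    set A2 : Set (Fin n → ℝ) := {x | ‖f x‖ ≤ t} with hA2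
    have hA1m : MeasurableSet A1 := measurableSet_lt measurable_const hf.norm
    have hA2m : MeasurableSet A2 := measurableSet_le hf.norm measurable_const
    have hf1 : Measurable (A1.indicator f) := hf.indicator hA1m
    have hf2 : Measurable (A2.indicator f) := hf.indicator hA2m
    have hi1 : Integrable (A1.indicator f) := hfi.indicator hA1m
    have hi2 : Integrable (A2.indicator f) := hfi.indicator hA2m
    have hsum : f = fun y => A1.indicator f y + A2.indicator f y := by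
      funext y
      by_cases hy : t < ‖f y‖
      · have h1 : y ∈ A1 := hy
        have h3 : y ∉ A2 := not_le.2 hy
        rw [indicator_of_mem h1, indicator_of_notMem h3, add_zero]
      · have h1 : y ∉ A1 := hy
        have h3 : y ∈ A2 := not_lt.1 hy
        rw [indicator_of_notMem h1, indicator_of_mem h3, zero_add]
    obtain ⟨hb1, _⟩ := hE κ hκ s n _ hf1 hi1
    obtain ⟨_, hb2⟩ := hE κ hκ s n _ hf2 hi2
    refine ⟨fun q => ‖T (fun j => al κ (q.1 j) s) (A1.indicator f) q.2‖ₑ,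
      fun q => ‖T (fun j => al κ (q.1 j) s) (A2.indicator f) q.2‖ₑ,
      (hjm _ hf1).enorm, (hjm _ hf2).enorm, ?_, ?_, ?_⟩
    · have hae : ∀ᵐ q ∂ν, q.1 ∈ Q :=
        Measure.quasiMeasurePreserving_fst.ae (ae_restrict_mem hQm)
      filter_upwards [hae] with q hq
      have hre : ∀ j, 0 < ((fun j => al κ (q.1 j) s) j).re := fun j => al_re hκ (hq.1 j)
      have h5 : T (fun j => al κ (q.1 j) s) f q.2 =
          T (fun j => al κ (q.1 j) s) (A1.indicator f) q.2 +
            T (fun j => al κ (q.1 j) s) (A2.indicator f) q.2 := by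
        conv_lhs => rw [hsum]
        exact T_add hN _ hre _ _ hi1 hi2 q.2
      rw [ofReal_norm, h5]
      exact enorm_add_le _ _
    · rw [hν, lintegral_prod _ (((hjm _ hf1).enorm.pow_const 2).aemeasurable)]
      refine hb1.trans ?_
      rw [ENNReal.ofReal_one, one_mul, ← lintegral_indicator hA1m]
      refine lintegral_mono fun x => ?_
      by_cases hx : x ∈ A1
      · rw [indicator_of_mem hx, indicator_of_mem hx, ofReal_norm]
      · rw [indicator_of_notMem hx, indicator_of_notMem hx]; simp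
    · rw [hν, lintegral_prod _ (((hjm _ hf2).enorm.pow_const 4).aemeasurable)]
      refine hb2.trans ?_
      refine mul_le_mul_right ?_ _
      rw [← lintegral_indicator hA2m]
      refine lintegral_mono fun x => ?_
      by_cases hx : x ∈ A2
      · rw [indicator_of_mem hx, indicator_of_mem hx, ofReal_norm]
      · rw [indicator_of_notMem hx, indicator_of_notMem hx]; simp

end Pool.Agent.W975.BE
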